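import Pool.Agent.N71.PS.DW
import Pool.Agent.N128.PS.R4

/-!
# Class number one for prime radicands is decided by an arbitrary set of primes

Let `P` be ANY set of primes that contains a positive proportion of the primes of `(y, 2y]` for all large
`y`, and let `a > 2`, `ε > 0`.  For 100% of the primes `p`, if `p ≡ 1 mod 4` then the following holds for
the field `K` of the square root of `p`.

* For suitable `y` and `k` with `2 y ≤ (log p)^a` and `2 k ≤ log p / log log p`, the ideals of `K` whose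
  norm is a product of `k` distinct primes of `P` in `(y, 2y]` are equidistributed in the ideal class
  group of `K`, in mean square, up to the relative error `ε`.
* Every ideal class is a product of at most `log p / log log p` classes of prime ideals whose norm is a
  prime number of `P` and at most `(log p)^a`.
* The class number of `K` is one if and only if all prime ideals whose norm is a prime number of `P` and
  at most `(log p)^a` are principal.

If both residue classes modulo 4 have a positive proportion in `P`, then this holds for 100% of all primes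
`p`.  Then the proportion `R x` of the primes `p ≤ x` with class number one and the proportion `RP P a x` of
the primes `p ≤ x` such that all prime ideals whose norm is a prime number of `P` and at most `(log p)^a`
are principal differ by a quantity that tends to zero.  So the conjecture `R x → C` is equivalent to
`RP P a x → C`, for every such set `P` and every `a > 2`.
-/

set_option autoImplicit false

namespace Pool.Agent.Results.MP_d0fd9b_nt.DecidedByAnySetOfPrimes

open Filter Finset NumberField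
open scoped Classical

/-- The prime numbers of the set `P` in the interval `(y, 2y]`. -/
noncomputable def primesIn (P : Set ℕ) (y : ℕ) : Finset ℕ :=
  (Finset.Ioc y (2 * y)).filter (fun p => p.Prime ∧ p ∈ P)

/-- `P` contains, for all large `y`, at least the proportion `δ` of the primes of `(y, 2y]`. -/
def Proportion (P : Set ℕ) (δ : ℝ) : Prop :=
  ∃ y0 : ℕ, ∀ y ≥ y0, δ * (primesIn Set.univ y).card ≤ (primesIn P y).card

/-- The number of the ideals of the ring of integers of `K` that have the class `C` and whose norm is a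
product of `k` distinct primes of `P` in the interval `(y, 2y]`. -/
noncomputable def cnt (P : Set ℕ) (K : Type) [Field K] [NumberField K] (y k : ℕ)
    (C : ClassGroup (𝓞 K)) : ℕ :=
  ∑ s ∈ (primesIn P y).powersetCard k, Nat.card {I : nonZeroDivisors (Ideal (𝓞 K)) //
    Ideal.absNorm (I : Ideal (𝓞 K)) = ∏ p ∈ s, p ∧ ClassGroup.mk0 I = C}

/-- There are such ideals, and the mean square deviation of their distribution among the `h` ideal
classes from the uniform distribution is at most `ε (1 / h) ^ 2`. -/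
def Equidistributed (P : Set ℕ) (K : Type) [Field K] [NumberField K] (y k : ℕ) (ε : ℝ) : Prop :=
  0 < ∑ C : ClassGroup (𝓞 K), cnt P K y k C ∧
  (∑ C : ClassGroup (𝓞 K), ((cnt P K y k C : ℝ) /
    ((∑ C' : ClassGroup (𝓞 K), cnt P K y k C' : ℕ) : ℝ) -
    1 / Nat.card (ClassGroup (𝓞 K))) ^ 2) / Nat.card (ClassGroup (𝓞 K)) ≤
      ε * (1 / Nat.card (ClassGroup (𝓞 K))) ^ 2

/-- Every ideal class is a product of at most `n` classes of prime ideals whose norm is a prime number
of `P` and at most `B`. -/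
def ShortProducts (P : Set ℕ) (K : Type) [Field K] [NumberField K] (B n : ℝ) : Prop :=
  ∀ C : ClassGroup (𝓞 K), ∃ L : Multiset (nonZeroDivisors (Ideal (𝓞 K))),
    (∀ 𝔭 ∈ L, (𝔭 : Ideal (𝓞 K)).IsPrime ∧ (Ideal.absNorm (𝔭 : Ideal (𝓞 K))).Prime ∧
      Ideal.absNorm (𝔭 : Ideal (𝓞 K)) ∈ P ∧ (Ideal.absNorm (𝔭 : Ideal (𝓞 K)) : ℝ) ≤ B) ∧
    (L.card : ℝ) ≤ n ∧ (L.map (fun 𝔭 => ClassGroup.mk0 𝔭)).prod = C

/-- The prime ideals of `K` whose norm is a prime number of `P` and at most `B` are principal. -/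
def SmallPrincipal (P : Set ℕ) (K : Type) [Field K] [NumberField K] (B : ℝ) : Prop :=
  ∀ 𝔭 : Ideal (𝓞 K), 𝔭.IsPrime → (Ideal.absNorm 𝔭).Prime → Ideal.absNorm 𝔭 ∈ P →
    (Ideal.absNorm 𝔭 : ℝ) ≤ B → 𝔭.IsPrincipal

/-- The property of the prime `p` in the theorem: all three statements hold for every quadratic
field containing a square root of `p`. -/
def Good (P : Set ℕ) (a ε : ℝ) (p : ℕ) : Prop :=
  ∀ (K : Type) [Field K] [NumberField K], Module.finrank ℚ K = 2 →
    (∃ x : K, x ^ 2 = (p : K)) →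
    (∃ y k : ℕ, 2 * (y : ℝ) ≤ (Real.log p) ^ a ∧
      2 * (k : ℝ) ≤ Real.log p / Real.log (Real.log p) ∧ Equidistributed P K y k ε) ∧
    ShortProducts P K ((Real.log p) ^ a) (Real.log p / Real.log (Real.log p)) ∧
    (classNumber K = 1 ↔ SmallPrincipal P K ((Real.log p) ^ a))

/-- `p` is a prime, and the field of the square root of `p` has class number one. -/
def ClassNumberOne (p : ℕ) : Prop :=
  p.Prime ∧ ∀ (K : Type) [Field K] [NumberField K], Module.finrank ℚ K = 2 →
    (∃ x : K, x ^ 2 = (p : K)) → classNumber K = 1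

/-- `p` is a prime, and in the field of the square root of `p` all prime ideals whose norm is a prime
number of `P` and at most `(log p)^a` are principal. -/
def TestPassed (P : Set ℕ) (a : ℝ) (p : ℕ) : Prop :=
  p.Prime ∧ ∀ (K : Type) [Field K] [NumberField K], Module.finrank ℚ K = 2 →
    (∃ x : K, x ^ 2 = (p : K)) → SmallPrincipal P K ((Real.log p) ^ a)

/-- The proportion of the primes up to `x` that have the property `F`. -/
noncomputable def proportion (F : ℕ → Prop) (x : ℕ) : ℝ :=
  (((Finset.Icc 1 x).filter F).card : ℝ) / (((Finset.Icc 1 x).filter Nat.Prime).card : ℝ)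

/-- For 100% of the primes `p` the property `G` holds. -/
def AlmostAllPrimes (G : ℕ → Prop) : Prop :=
  Tendsto (proportion (fun p => p.Prime ∧ ¬ G p)) atTop (nhds 0)

theorem decided (P : Set ℕ) (K : Type) [Field K] [NumberField K] (B n : ℝ)
    (h : ShortProducts P K B n) : classNumber K = 1 ↔ SmallPrincipal P K B := by
  constructor
  · intro hU 𝔭 _ _ _ _
    have : IsPrincipalIdealRing (𝓞 K) := classNumber_eq_one_iff.1 hU
    exact IsPrincipalIdealRing.principal 𝔭
  · intro hP
    have htriv : ∀ C : ClassGroup (𝓞 K), C = 1 := by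
      intro C
      obtain ⟨L, hL, _, hprod⟩ := h C
      rw [← hprod]
      apply Multiset.prod_eq_one
      intro c hc
      obtain ⟨𝔭, hPL, rfl⟩ := Multiset.mem_map.1 hc
      rw [ClassGroup.mk0_eq_one_iff]
      obtain ⟨h1, h2, h3, h4⟩ := hL 𝔭 hPL
      exact hP _ h1 h2 h3 h4
    unfold classNumber
    rw [Fintype.card_eq_one_iff]
    exact ⟨1, htriv⟩

theorem good_iff (P : Set ℕ) (a ε : ℝ) (d : ℕ) :
    Pool.Agent.N71.PS.GoodE P a ε d ↔ Good P a ε d := by
  constructor
  · intro h3 K _ _ hK hx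
    obtain ⟨h4, h5⟩ := h3 K hK hx
    exact ⟨h4, h5, decided P K _ _ h5⟩
  · intro h3 K _ _ hK hx
    exact ⟨(h3 K hK hx).1, (h3 K hK hx).2.1⟩

theorem card_univ' (y : ℕ) :
    (primesIn Set.univ y).card = (Pool.Agent.H38R2.CG.PP y).card := by
  apply congrArg Finset.card
  ext p
  simp [primesIn, Pool.Agent.H38R2.CG.PP]

theorem low_of_proportion (P : Set ℕ) (δ : ℝ) (hδ : 0 < δ) (h : Proportion P δ) :
    ∃ δ' : ℝ, 0 < δ' ∧ ∃ y0 : ℕ, ∀ y ≥ y0, δ' * y / Real.log y ≤ (primesIn P y).card := by
  obtain ⟨y1, h1⟩ := h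
  obtain ⟨-, y2, h2⟩ := Pool.Agent.H38R2.CG.T_NB
  refine ⟨δ * (9 / 10), by positivity, max y1 y2, fun y hy => ?_⟩
  have h3 := h1 y ((le_max_left _ _).trans hy)
  have h4 := (h2 y ((le_max_right _ _).trans hy)).1
  rw [card_univ'] at h3
  calc δ * (9 / 10) * y / Real.log y = δ * (9 / 10 * y / Real.log y) := by ring
    _ ≤ δ * (Pool.Agent.H38R2.CG.PP y).card := by gcongr
    _ ≤ _ := h3

theorem icc_eq (f : ℕ → Prop) [DecidablePred f] (hf : ∀ d, f d → 2 ≤ d) (X : ℕ) :
    (Finset.Icc 2 X).filter f = (Finset.Icc 1 X).filter f := by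
  ext d
  rw [mem_filter, mem_filter, mem_Icc, mem_Icc]
  constructor
  · rintro ⟨⟨h1, h2⟩, h3⟩
    exact ⟨⟨by omega, h2⟩, h3⟩
  · rintro ⟨⟨h1, h2⟩, h3⟩
    exact ⟨⟨hf d h3, h2⟩, h3⟩

theorem card_le' (s : Finset ℕ) (F F' : ℕ → Prop) [DecidablePred F] [DecidablePred F']
    (h : ∀ p, F p → F' p) : ((s.filter F).card : ℝ) ≤ ((s.filter F').card : ℝ) := by
  have : (s.filter F).card ≤ (s.filter F').card := by
    apply card_le_card
    intro p hp
    rw [mem_filter] at hp ⊢
    exact ⟨hp.1, h p hp.2⟩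
  exact_mod_cast this

/-- the general form, for the primes with the property `H` -/
theorem primes_H (P : Set ℕ)
    (hlow : ∃ δ : ℝ, 0 < δ ∧ ∃ y0 : ℕ, ∀ y ≥ y0, δ * y / Real.log y ≤ (primesIn P y).card)
    (G : ℕ → Prop) (H : ℕ → Prop) (hGH : ∀ p, H p → G (Pool.Agent.H38R2.CG.FINh.Dof p))
    (hG : ∀ p : ℕ, p.Prime → 2 < p → G (Pool.Agent.H38R2.CG.FINh.Dof p) →
      p % 4 = 1 ∨ (p % 4 = 3 ∧ Pool.Agent.N71.PS.Both4 P))
    (a ε : ℝ) (ha : 2 < a) (hε : 0 < ε) :
    AlmostAllPrimes (fun p => H p → Good P a ε p) := by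
  let inst : Pool.Agent.N71.PS.PSet := ⟨P, hlow⟩
  have h1 := Pool.Agent.N71.PS.d_fp G (fun a' ha' => ⟨2, fun z hz p hp hzp hGp => by
    have hF : Pool.Agent.H38R2.CG.IsFund (Pool.Agent.H38R2.CG.FINh.Dof p) :=
      Pool.Agent.H38R2.CG.FINh.isFund_Dof hp.one_lt hp.squarefree
    have hFR := Pool.Agent.H38R2.CG.AS1h.fundRes z _ hF
    rcases hG p hp (by omega) hGp with h4 | ⟨h4, hB⟩
    · apply Pool.Agent.N71.PS.d_sb a' ha' z _ hz hFR
      have e1 : Pool.Agent.H38R2.CG.FINh.Dof p = p := if_pos h4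
      rw [e1]
      have hcop : p.Coprime (Pool.Agent.H38R2.CG.Qz z) := by
        rw [Nat.Prime.coprime_iff_not_dvd hp]
        intro hdvd
        unfold Pool.Agent.H38R2.CG.Qz at hdvd
        rcases (Nat.Prime.dvd_mul hp).1 hdvd with h5 | h5
        · have h6 : p ∣ 2 ^ 4 := by norm_num; exact h5
          have h7 := Nat.le_of_dvd (by norm_num) (hp.dvd_of_dvd_pow h6)
          omega
        · obtain ⟨l, hl, hpl⟩ := (Prime.dvd_finsetProd_iff hp.prime _).1 h5
          have hl2 := Finset.mem_filter.1 hl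
          have h7 := Nat.le_of_dvd hl2.2.pos (hp.dvd_of_dvd_pow hpl)
          have h8 := (Finset.mem_Icc.1 hl2.1).2
          omega
      have hcop2 : (p % Pool.Agent.H38R2.CG.Qz z).Coprime (Pool.Agent.H38R2.CG.Qz z) := by
        show Nat.gcd (p % Pool.Agent.H38R2.CG.Qz z) (Pool.Agent.H38R2.CG.Qz z) = 1
        rw [← Nat.gcd_rec, Nat.gcd_comm]
        exact hcop
      exact hcop2
    · apply Pool.Agent.N71.PS.d_sa a' ha' z _ hz hFR
      have e1 : Pool.Agent.H38R2.CG.FINh.Dof p = 4 * p := if_neg (by omega)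
      rw [e1]
      exact Pool.Agent.N71.PS.R4.D_R4_true hB z p hz hp hzp h4⟩) a ε ha hε
  show Tendsto (proportion (fun p => p.Prime ∧ ¬ (H p → Good P a ε p))) atTop (nhds 0)
  obtain ⟨Bp, hBp⟩ : ∃ Bp : ℕ → Prop, Bp = fun p => p.Prime ∧ ¬ (H p → Good P a ε p) := ⟨_, rfl⟩
  rw [← hBp]
  have hBp' : ∀ p, Bp p → p.Prime ∧ G (Pool.Agent.H38R2.CG.FINh.Dof p) ∧
      ¬ Pool.Agent.N71.PS.GoodE P a ε p := by
    intro p hp
    rw [hBp] at hp
    obtain ⟨hp2, hp3⟩ := hp
    rw [Classical.not_imp] at hp3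
    refine ⟨hp2, hGH p hp3.1, ?_⟩
    rw [good_iff]
    exact hp3.2
  refine squeeze_zero (fun X => ?_) (fun X => ?_) h1
  · unfold proportion
    positivity
  · unfold proportion
    rw [icc_eq Nat.Prime (fun p hp => hp.two_le) X, icc_eq _ (fun p hp => hp.1.two_le) X]
    apply div_le_div_of_nonneg_right _ (Nat.cast_nonneg _)
    exact card_le' (Finset.Icc 1 X) _ _ hBp'

theorem both4 (P : Set ℕ) (δ1 δ3 : ℝ) (hδ1 : 0 < δ1) (hδ3 : 0 < δ3)
    (h1 : Proportion {p | p ∈ P ∧ p % 4 = 1} δ1) (h3 : Proportion {p | p ∈ P ∧ p % 4 = 3} δ3) :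
    Pool.Agent.N71.PS.Both4 P := by
  obtain ⟨y1, h1⟩ := h1
  obtain ⟨y3, h3⟩ := h3
  obtain ⟨δ, hδ0, hδ1', hδ3'⟩ : ∃ δ : ℝ, 0 < δ ∧ δ ≤ δ1 ∧ δ ≤ δ3 :=
    ⟨min δ1 δ3, lt_min hδ1 hδ3, min_le_left _ _, min_le_right _ _⟩
  refine ⟨1 - 2 * δ, by linarith, max (max y1 y3) 2, fun y hy => ?_⟩
  have hy1 : y1 ≤ y := (le_max_left _ _).trans ((le_max_left _ _).trans hy)
  have hy3 : y3 ≤ y := (le_max_right _ _).trans ((le_max_left _ _).trans hy)
  have hy2 : 2 ≤ y := (le_max_right _ _).trans hy
  have e : ∀ c : ℕ, ((Pool.Agent.N71.PS.primesIn P y).filter (fun p => p % 4 = c)).card =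
      (primesIn {p | p ∈ P ∧ p % 4 = c} y).card := by
    intro c
    apply congrArg Finset.card
    ext p
    simp only [Pool.Agent.N71.PS.primesIn, primesIn, mem_filter, Set.mem_ofPred_eq]
    tauto
  have hsplit : (Pool.Agent.N71.PS.primesIn P y).card =
      ((Pool.Agent.N71.PS.primesIn P y).filter (fun p => p % 4 = 1)).card +
        ((Pool.Agent.N71.PS.primesIn P y).filter (fun p => p % 4 = 3)).card := by
    rw [← card_union_of_disjoint]
    · apply congrArg Finset.card
      ext p
      simp only [Pool.Agent.N71.PS.primesIn, mem_union, mem_filter, mem_Ioc]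
      constructor
      · rintro ⟨⟨hp1, hp2⟩, hp3, hp4⟩
        have : p % 2 = 1 := by
          rcases hp3.eq_two_or_odd with h | h
          · omega
          · exact h
        have : p % 4 = 1 ∨ p % 4 = 3 := by omega
        rcases this with h | h
        · exact Or.inl ⟨⟨⟨hp1, hp2⟩, hp3, hp4⟩, h⟩
        · exact Or.inr ⟨⟨⟨hp1, hp2⟩, hp3, hp4⟩, h⟩
      · rintro (h | h)
        · exact h.1
        · exact h.1
    · rw [Finset.disjoint_left]
      intro p hp hp'
      rw [mem_filter] at hp hp'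
      omega
  have huniv : ((Pool.Agent.N71.PS.primesIn P y).card : ℝ) ≤ (primesIn Set.univ y).card := by
    have : (Pool.Agent.N71.PS.primesIn P y).card ≤ (primesIn Set.univ y).card := by
      apply card_le_card
      intro p hp
      simp only [Pool.Agent.N71.PS.primesIn, primesIn, mem_filter, Set.mem_univ] at hp ⊢
      exact ⟨hp.1, hp.2.1, trivial⟩
    exact_mod_cast this
  have g1 := h1 y hy1
  have g3 := h3 y hy3
  rw [← e 1] at g1
  rw [← e 3] at g3
  obtain ⟨A, hA⟩ : ∃ A : ℝ, A = ((Pool.Agent.N71.PS.primesIn P y).filter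
    (fun p => p % 4 = 1)).card := ⟨_, rfl⟩
  obtain ⟨B, hB⟩ : ∃ B : ℝ, B = ((Pool.Agent.N71.PS.primesIn P y).filter
    (fun p => p % 4 = 3)).card := ⟨_, rfl⟩
  obtain ⟨T, hT⟩ : ∃ T : ℝ, T = (Pool.Agent.N71.PS.primesIn P y).card := ⟨_, rfl⟩
  have hAB : T = A + B := by
    rw [hT, hA, hB, hsplit]
    push_cast
    rfl
  have hT0 : 0 ≤ T := by
    rw [hT]
    positivity
  obtain ⟨U, hU⟩ : ∃ U : ℝ, U = (primesIn Set.univ y).card := ⟨_, rfl⟩
  rw [← hU, ← hT] at huniv
  rw [← hU, ← hA] at g1
  rw [← hU, ← hB] at g3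
  have k1 : δ * T ≤ A := by
    calc δ * T ≤ δ1 * U := by
          apply mul_le_mul hδ1' huniv hT0 hδ1.le
      _ ≤ A := g1
  have k3 : δ * T ≤ B := by
    calc δ * T ≤ δ3 * U := by
          apply mul_le_mul hδ3' huniv hT0 hδ3.le
      _ ≤ B := g3
  have goal : |A - B| ≤ (1 - 2 * δ) * T := by
    rw [abs_le]
    constructor <;> nlinarith
  rw [hA, hB, hT] at goal
  exact goal

/-- `P` contains a positive proportion of the primes. -/
def Positive (P : Set ℕ) : Prop := ∃ δ : ℝ, 0 < δ ∧ Proportion P δ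

theorem result (P : Set ℕ) (a ε : ℝ) (ha : 2 < a) (hε : 0 < ε) :
    (Positive P → AlmostAllPrimes (fun p => p % 4 = 1 → Good P a ε p)) ∧
    (Positive {p | p ∈ P ∧ p % 4 = 1} → Positive {p | p ∈ P ∧ p % 4 = 3} →
      AlmostAllPrimes (Good P a ε) ∧
      Tendsto (fun x => proportion ClassNumberOne x - proportion (TestPassed P a) x)
        atTop (nhds 0) ∧
      ∀ C : ℝ, Tendsto (proportion ClassNumberOne) atTop (nhds C) ↔
        Tendsto (proportion (TestPassed P a)) atTop (nhds C)) := by
  constructor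
  · rintro ⟨δ, hδ, h⟩
    refine primes_H P (low_of_proportion P δ hδ h) (fun D => D % 4 = 1) (fun p => p % 4 = 1) ?_ ?_
      a ε ha hε
    · intro p hp
      have e1 : Pool.Agent.H38R2.CG.FINh.Dof p = p := if_pos hp
      show Pool.Agent.H38R2.CG.FINh.Dof p % 4 = 1
      rw [e1]
      exact hp
    · intro p _ _ h1
      left
      by_contra hp
      have e1 : Pool.Agent.H38R2.CG.FINh.Dof p = 4 * p := if_neg hp
      have h2 : Pool.Agent.H38R2.CG.FINh.Dof p % 4 = 1 := h1
      rw [e1] at h2
      omega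
  · rintro ⟨δ1, hδ1, h1⟩ ⟨δ3, hδ3, h3⟩
    have hP : Proportion P δ1 := by
      obtain ⟨y0, h0⟩ := h1
      refine ⟨y0, fun y hy => (h0 y hy).trans ?_⟩
      have : (primesIn {p | p ∈ P ∧ p % 4 = 1} y).card ≤ (primesIn P y).card := by
        apply card_le_card
        intro p hp
        simp only [primesIn, mem_filter, Set.mem_ofPred_eq] at hp ⊢
        exact ⟨hp.1, hp.2.1, hp.2.2.1⟩
      exact_mod_cast this
    have hB := both4 P δ1 δ3 hδ1 hδ3 h1 h3
    have hlow := low_of_proportion P δ1 hδ1 hP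
    have key : ∀ ε' : ℝ, 0 < ε' → AlmostAllPrimes (Good P a ε') := by
      intro ε' hε'
      have h4 := primes_H P hlow (fun _ => True) (fun _ => True) (fun _ _ => trivial)
        (fun p hp hp2 _ => by
          have : p % 2 = 1 := by
            rcases hp.eq_two_or_odd with h | h
            · omega
            · exact h
          have : p % 4 = 1 ∨ p % 4 = 3 := by omega
          rcases this with h | h
          · exact Or.inl h
          · exact Or.inr ⟨h, hB⟩) a ε' ha hε'
      unfold AlmostAllPrimes at h4 ⊢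
      have e : (fun p : ℕ => p.Prime ∧ ¬ (fun p => True → Good P a ε' p) p) =
          (fun p : ℕ => p.Prime ∧ ¬ Good P a ε' p) := by
        funext p
        simp
      rw [e] at h4
      exact h4
    have hdiff : Tendsto (fun x => proportion ClassNumberOne x - proportion (TestPassed P a) x)
        atTop (nhds 0) := by
      apply squeeze_zero_norm _ (key ε hε)
      intro x
      obtain ⟨Bp, hBp⟩ : ∃ Bp : ℕ → Prop, Bp = fun p => p.Prime ∧ ¬ Good P a ε p := ⟨_, rfl⟩
      have hBp' : ∀ p, p.Prime → ¬ Good P a ε p → Bp p := by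
        intro p h5 h6
        rw [hBp]
        exact ⟨h5, h6⟩
      rw [← hBp]
      unfold proportion
      rw [← sub_div, norm_div, Real.norm_of_nonneg (Nat.cast_nonneg _)]
      apply div_le_div_of_nonneg_right _ (Nat.cast_nonneg _)
      obtain ⟨N, hN⟩ : ∃ N, N = ((Finset.Icc 1 x).filter Bp).card := ⟨_, rfl⟩
      have hgood : ∀ p, p.Prime → Good P a ε p → (ClassNumberOne p ↔ TestPassed P a p) := by
        intro p hp hg
        unfold ClassNumberOne TestPassed
        constructor
        · rintro ⟨_, h5⟩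
          exact ⟨hp, fun K _ _ hK hx => (hg K hK hx).2.2.1 (h5 K hK hx)⟩
        · rintro ⟨_, h5⟩
          exact ⟨hp, fun K _ _ hK hx => (hg K hK hx).2.2.2 (h5 K hK hx)⟩
      have hle : ∀ F F' : ℕ → Prop, (∀ p, F p → p.Prime) → (∀ p, p.Prime → Good P a ε p →
          (F p → F' p)) → ((Finset.Icc 1 x).filter F).card ≤
            ((Finset.Icc 1 x).filter F').card + N := by
        intro F F' hF hFF
        rw [hN]
        refine le_trans (card_le_card ?_) (card_union_le _ _)
        intro p hp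
        rw [mem_filter] at hp
        rw [mem_union, mem_filter, mem_filter]
        by_cases hg : Good P a ε p
        · exact Or.inl ⟨hp.1, hFF p (hF p hp.2) hg hp.2⟩
        · exact Or.inr ⟨hp.1, hBp' p (hF p hp.2) hg⟩
      have k1 := hle ClassNumberOne (TestPassed P a) (fun p hp => hp.1)
        (fun p hp hg h5 => (hgood p hp hg).1 h5)
      have k2 := hle (TestPassed P a) ClassNumberOne (fun p hp => hp.1)
        (fun p hp hg h5 => (hgood p hp hg).2 h5)
      have k1' : (((Finset.Icc 1 x).filter ClassNumberOne).card : ℝ) ≤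
        ((Finset.Icc 1 x).filter (TestPassed P a)).card + N := by exact_mod_cast k1
      have k2' : (((Finset.Icc 1 x).filter (TestPassed P a)).card : ℝ) ≤
        ((Finset.Icc 1 x).filter ClassNumberOne).card + N := by exact_mod_cast k2
      have k3 : |(((Finset.Icc 1 x).filter ClassNumberOne).card : ℝ) -
          ((Finset.Icc 1 x).filter (TestPassed P a)).card| ≤ N := by
        rw [abs_le]
        constructor <;> linarith
      rw [Real.norm_eq_abs]
      rw [hN] at k3
      exact k3
    refine ⟨key ε hε, hdiff, fun C => ⟨fun h => ?_, fun h => ?_⟩⟩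
    · have h5 := h.sub hdiff
      rw [sub_zero] at h5
      refine h5.congr (fun x => ?_)
      ring
    · have h5 := h.add hdiff
      rw [add_zero] at h5
      refine h5.congr (fun x => ?_)
      ring

end Pool.Agent.Results.MP_d0fd9b_nt.DecidedByAnySetOfPrimes
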