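import Pool.Agent.N71.SI.End

/-!
# Class groups of real quadratic fields in short intervals and the small primes of a sparse set

Let `P` be ANY set of primes that contains, for every `σ < s` and all large `y`, at least `y ^ σ` primes
of the interval `(y, 2y]`; here `0 < s ≤ 1` is arbitrary, so `P` may be very sparse.  For a squarefree
integer `d` let `K` be the field of the square root of `d` and `h` its class number, and consider the
prime ideals of `K` whose norm is a prime number of `P` and at most `(log d)^a`, where `a s > 1`.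

Let `0 < w ≤ 1` and `e = max (0, (a - 2 w (a s - 1)) / (2 (a (1 + s) - 1)))`.  For every `ε > 0` there are
`δ > 0` and `C` such that for ALL `x` and `H` with `x ^ w ≤ H ≤ x`, all but at most `C H x^(-δ)` of the
squarefree integers `d` in `(x, x + H]`, in particular all but at most `C H x^(-δ)` of the primes in
`(x, x + H]`, have the following properties:

* the classes of these prime ideals generate a subgroup of index at most `d^(e+ε)`,
* at least `h / d^(e+ε)` classes are products of at most `(3/2) log d / log log d` such classes,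
* if all these prime ideals are principal, then `h ≤ d^(e+ε)`.

For the set of all primes (`s = 1`) the exponent `e` is `0` for every `w > 1/2` as soon as
`a ≥ 2 w / (2 w - 1)`; for `w ≤ 1/2` it tends to `(1 - 2 w) / 4` as `a` tends to infinity.
-/

set_option autoImplicit false

namespace Pool.Agent.Results.MP_d0fd9b_nt.ShortIntervals

open Filter Finset NumberField
open scoped Classical

/-- The prime numbers of the set `P` in the interval `(y, 2y]`. -/
noncomputable def primesIn (P : Set ℕ) (y : ℕ) : Finset ℕ :=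
  (Finset.Ioc y (2 * y)).filter (fun p => p.Prime ∧ p ∈ P)

/-- For every `σ < s` and all large `y` the set `P` contains at least `y ^ σ` primes of `(y, 2y]`. -/
def HasExponent (P : Set ℕ) (s : ℝ) : Prop :=
  ∀ σ : ℝ, σ < s → ∃ y0 : ℕ, ∀ y ≥ y0, (y : ℝ) ^ σ ≤ (primesIn P y).card

/-- The nonzero prime ideals of `K` whose norm is a prime number of `P` and at most `B`. -/
def smallPrimes (P : Set ℕ) (K : Type) [Field K] [NumberField K] (B : ℝ) :
    Set (nonZeroDivisors (Ideal (𝓞 K))) :=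
  {𝔭 | (𝔭 : Ideal (𝓞 K)).IsPrime ∧ (Ideal.absNorm (𝔭 : Ideal (𝓞 K))).Prime ∧
    Ideal.absNorm (𝔭 : Ideal (𝓞 K)) ∈ P ∧ (Ideal.absNorm (𝔭 : Ideal (𝓞 K)) : ℝ) ≤ B}

/-- The ideal classes that are products of at most `n` classes of these prime ideals. -/
def Reach (P : Set ℕ) (K : Type) [Field K] [NumberField K] (B n : ℝ) : Set (ClassGroup (𝓞 K)) :=
  {C | ∃ L : Multiset (nonZeroDivisors (Ideal (𝓞 K))), (∀ 𝔭 ∈ L, 𝔭 ∈ smallPrimes P K B) ∧
    (L.card : ℝ) ≤ n ∧ (L.map (fun 𝔭 => ClassGroup.mk0 𝔭)).prod = C}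

/-- The subgroup of the class group generated by the classes of these prime ideals. -/
noncomputable def Gen (P : Set ℕ) (K : Type) [Field K] [NumberField K] (B : ℝ) :
    Subgroup (ClassGroup (𝓞 K)) :=
  Subgroup.closure ((fun 𝔭 => ClassGroup.mk0 𝔭) '' smallPrimes P K B)

/-- The property of the integer `d`: for every quadratic field containing a square root of `d`, with
class number `h`, at least `h / d ^ e` classes are products of at most `(3/2) log d / log log d` classes
of prime ideals of norm in `P` and at most `(log d) ^ a`, the subgroup generated by them has index at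
most `d ^ e`, and `h ≤ d ^ e` if they are all principal. -/
def Good (P : Set ℕ) (a e : ℝ) (d : ℕ) : Prop :=
  ∀ (K : Type) [Field K] [NumberField K], Module.finrank ℚ K = 2 → (∃ x : K, x ^ 2 = (d : K)) →
    (classNumber K : ℝ) ≤ (d : ℝ) ^ e *
      ((Reach P K ((Real.log d) ^ a) (3 / 2 * (Real.log d / Real.log (Real.log d)))).ncard : ℝ) ∧
    ((Gen P K ((Real.log d) ^ a)).index : ℝ) ≤ (d : ℝ) ^ e ∧
    ((∀ 𝔭 ∈ smallPrimes P K ((Real.log d) ^ a), (𝔭 : Ideal (𝓞 K)).IsPrincipal) →
      (classNumber K : ℝ) ≤ (d : ℝ) ^ e)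

/-- The exponent of the index, for intervals of length at least `x ^ w`. -/
noncomputable def expo (s a w : ℝ) : ℝ :=
  max 0 ((a - 2 * w * (a * s - 1)) / (2 * (a * (1 + s) - 1)))

/-- The number of squarefree integers in `(x, x + H]` that do not have the property `G`. -/
noncomputable def exceptions (x H : ℕ) (G : ℕ → Prop) : ℕ :=
  ((Finset.Ioc x (x + H)).filter (fun d => Squarefree d ∧ ¬ G d)).card

/-- The number of primes in `(x, x + H]` that do not have the property `G`. -/
noncomputable def primeExceptions (x H : ℕ) (G : ℕ → Prop) : ℕ :=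
  ((Finset.Ioc x (x + H)).filter (fun p => p.Prime ∧ ¬ G p)).card

theorem prime_le (x H : ℕ) (G : ℕ → Prop) : primeExceptions x H G ≤ exceptions x H G := by
  apply card_le_card
  intro p hp
  rw [mem_filter] at hp ⊢
  exact ⟨hp.1, hp.2.1.squarefree, hp.2.2⟩

theorem exceptions_le (x H : ℕ) (G : ℕ → Prop) : exceptions x H G ≤ H := by
  refine (card_filter_le _ _).trans ?_
  rw [Nat.card_Ioc]
  omega

theorem reach_sub (P : Set ℕ) (K : Type) [Field K] [NumberField K] (B n : ℝ) :
    Reach P K B n ⊆ (Gen P K B : Set (ClassGroup (𝓞 K))) := by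
  rintro C ⟨L, h1, -, rfl⟩
  refine Subgroup.multiset_prod_mem _ _ ?_
  intro c hc
  obtain ⟨𝔭, h𝔭, rfl⟩ := Multiset.mem_map.1 hc
  exact Subgroup.subset_closure ⟨𝔭, h1 𝔭 h𝔭, rfl⟩

/-- everything follows from the first property -/
theorem good_of (P : Set ℕ) (a e : ℝ) (d : ℕ)
    (h : ∀ (K : Type) [Field K] [NumberField K], Module.finrank ℚ K = 2 →
      (∃ x : K, x ^ 2 = (d : K)) → (Nat.card (ClassGroup (𝓞 K)) : ℝ) ≤ (d : ℝ) ^ e *
      ((Reach P K ((Real.log d) ^ a) (3 / 2 * (Real.log d / Real.log (Real.log d)))).ncard : ℝ)) :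
    Good P a e d := by
  intro K _ _ hK hx
  have h1 := h K hK hx
  have hcl : (classNumber K : ℝ) = Nat.card (ClassGroup (𝓞 K)) := by
    unfold classNumber
    rw [Nat.card_eq_fintype_card]
  rw [hcl]
  have hd : 0 ≤ (d : ℝ) ^ e := Real.rpow_nonneg (Nat.cast_nonneg _) _
  set G := Gen P K ((Real.log d) ^ a) with hG
  set R := Reach P K ((Real.log d) ^ a) (3 / 2 * (Real.log d / Real.log (Real.log d))) with hR
  have h2 : (R.ncard : ℝ) ≤ Nat.card G := by
    have h3 := Set.ncard_le_ncard (reach_sub P K ((Real.log d) ^ a)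
      (3 / 2 * (Real.log d / Real.log (Real.log d)))) (Set.toFinite _)
    have h4 : ((G : Subgroup (ClassGroup (𝓞 K))) : Set (ClassGroup (𝓞 K))).ncard = Nat.card G :=
      rfl
    rw [← hG, h4, ← hR] at h3
    exact_mod_cast h3
  have h5 : (0 : ℝ) < Nat.card G := by exact_mod_cast Nat.card_pos
  have h6 : (Nat.card (ClassGroup (𝓞 K)) : ℝ) = Nat.card G * G.index := by
    exact_mod_cast (Subgroup.card_mul_index G).symm
  refine ⟨h1, ?_, ?_⟩
  · have h7 : (G.index : ℝ) * Nat.card G ≤ (d : ℝ) ^ e * Nat.card G := by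
      calc (G.index : ℝ) * Nat.card G = Nat.card (ClassGroup (𝓞 K)) := by rw [h6]; ring
        _ ≤ (d : ℝ) ^ e * (R.ncard : ℝ) := h1
        _ ≤ _ := mul_le_mul_of_nonneg_left h2 hd
    exact le_of_mul_le_mul_right h7 h5
  · intro hP
    have h8 : G = ⊥ := by
      rw [hG, Gen, Subgroup.closure_eq_bot_iff]
      rintro c ⟨𝔭, hp, rfl⟩
      rw [Set.mem_singleton_iff]
      show ClassGroup.mk0 𝔭 = 1
      rw [ClassGroup.mk0_eq_one_iff]
      exact hP _ hp
    have h9 : Nat.card G = 1 := by rw [h8]; exact Subgroup.card_bot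
    rw [h9] at h2
    calc (Nat.card (ClassGroup (𝓞 K)) : ℝ) ≤ (d : ℝ) ^ e * (R.ncard : ℝ) := h1
      _ ≤ (d : ℝ) ^ e * ((1 : ℕ) : ℝ) := mul_le_mul_of_nonneg_left h2 hd
      _ = _ := by rw [Nat.cast_one, mul_one]

theorem reach_eq (P : Set ℕ) (K : Type) [Field K] [NumberField K] (B n : ℝ) :
    Pool.Agent.N71.SP.Reach P K B n = Reach P K B n := rfl

theorem many_of (P : Set ℕ) (s σ : ℝ) (h : HasExponent P s) (hσ : σ < s) :
    Pool.Agent.N71.SP.Many P σ := h σ hσ

/-- from the property in the library to `Good` -/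
theorem good_of_goodS {P : Set ℕ} {a e e' : ℝ} {d : ℕ} (hd : 1 ≤ d) (he : e ≤ e')
    (h : Pool.Agent.N71.SP.GoodS P a e d) : Good P a e' d := by
  apply good_of
  intro K _ _ hK hx
  have h1 : (Nat.card (ClassGroup (𝓞 K)) : ℝ) ≤ (d : ℝ) ^ e *
      ((Reach P K ((Real.log d) ^ a) (3 / 2 * (Real.log d / Real.log (Real.log d)))).ncard : ℝ) :=
    h K hK hx
  have h2 : (d : ℝ) ^ e ≤ (d : ℝ) ^ e' :=
    Real.rpow_le_rpow_of_exponent_le (by exact_mod_cast hd) he
  exact h1.trans (mul_le_mul_of_nonneg_right h2 (Nat.cast_nonneg _))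

theorem expo_le (a : ℝ) (ha0 : 0 < a) {s w : ℝ} (hs : 1 < a * s) {ε : ℝ} (hε : 0 < ε) :
    ∀ᶠ σ : ℝ in nhdsWithin s (Set.Iio s),
      Pool.Agent.N71.SI.eS σ a w < expo s a w + ε := by
  have hden : (2 * (a * (1 + s) - 1)) ≠ 0 := by
    have : 0 < 2 * (a * (1 + s) - 1) := by nlinarith
    exact this.ne'
  have hcont : ContinuousAt (fun σ : ℝ =>
      max 0 ((a - 2 * w * (a * σ - 1)) / (2 * (a * (1 + σ) - 1)))) s := by
    refine ContinuousAt.sup continuousAt_const ?_
    exact ContinuousAt.div (by fun_prop) (by fun_prop) hden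
  have h1 := hcont.tendsto.mono_left (nhdsWithin_le_nhds (s := Set.Iio s))
  exact h1.eventually (gt_mem_nhds (by unfold expo; linarith))

/-- **Main theorem.** -/
theorem result (P : Set ℕ) (s : ℝ) (hs0 : 0 < s) (hs1 : s ≤ 1) (hP : HasExponent P s) (a w ε : ℝ)
    (ha : 1 < a * s) (hw0 : 0 < w) (hw1 : w ≤ 1) (hε : 0 < ε) :
    ∃ δ C : ℝ, 0 < δ ∧ 0 < C ∧ ∀ x H : ℕ, 1 ≤ x → (x : ℝ) ^ w ≤ H → H ≤ x →
      (exceptions x H (Good P a (expo s a w + ε)) : ℝ) ≤ C * (H * (x : ℝ) ^ (-δ)) ∧
      (primeExceptions x H (Good P a (expo s a w + ε)) : ℝ) ≤ C * (H * (x : ℝ) ^ (-δ)) := by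
  have ha0 : 0 < a := by
    by_contra h
    push Not at h
    nlinarith
  have h1 := expo_le a ha0 (w := w) ha (ε := ε / 2) (by positivity)
  have h2 : ∀ᶠ σ : ℝ in nhdsWithin s (Set.Iio s), 1 / a < σ := by
    apply nhdsWithin_le_nhds
    apply lt_mem_nhds
    rw [div_lt_iff₀ ha0]
    linarith
  have h3 : ∀ᶠ σ : ℝ in nhdsWithin s (Set.Iio s), σ < s := self_mem_nhdsWithin
  obtain ⟨σ, h4, h5, h6⟩ := (h1.and (h2.and h3)).exists
  have hσ0 : 0 < σ := lt_trans (by positivity) h5
  have haσ : 1 < a * σ := by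
    rw [div_lt_iff₀ ha0] at h5
    linarith
  obtain ⟨δ, hδ, hδ1, x0, h⟩ := Pool.Agent.N71.SI.t_SI P σ hσ0 (by linarith)
    (many_of P s σ hP h6) a haσ w hw0 hw1 (ε / 2) (by positivity)
  have hkey : ∀ x H : ℕ, 1 ≤ x → (x : ℝ) ^ w ≤ H → H ≤ x →
      (exceptions x H (Good P a (expo s a w + ε)) : ℝ) ≤
        (5 + (x0 : ℝ) ^ δ) * (H * (x : ℝ) ^ (-δ)) := by
    intro x H hx hxH hHx
    have hxr : (0 : ℝ) < x := by exact_mod_cast hx
    have hp : 0 < (x : ℝ) ^ (-δ) := Real.rpow_pos_of_pos hxr _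
    have hH : (0 : ℝ) ≤ H := Nat.cast_nonneg _
    have hx0 : (0 : ℝ) ≤ (x0 : ℝ) ^ δ := Real.rpow_nonneg (Nat.cast_nonneg _) _
    rcases le_or_gt x0 x with hle | hgt
    · have h7 := h x hle H hxH hHx
      have h8 : exceptions x H (Good P a (expo s a w + ε)) ≤
          ((Finset.Ioc x (x + H)).filter (fun d => Squarefree d ∧
            ¬ Pool.Agent.N71.SP.GoodS P a (Pool.Agent.N71.SI.eS σ a w + ε / 2) d)).card := by
        apply card_le_card
        intro d hd
        rw [mem_filter] at hd ⊢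
        refine ⟨hd.1, hd.2.1, fun hg => hd.2.2 (good_of_goodS ?_ (by linarith) hg)⟩
        have := (Finset.mem_Ioc.1 hd.1).1
        omega
      have h9 : (exceptions x H (Good P a (expo s a w + ε)) : ℝ) ≤
          (((Finset.Ioc x (x + H)).filter (fun d => Squarefree d ∧
            ¬ Pool.Agent.N71.SP.GoodS P a (Pool.Agent.N71.SI.eS σ a w + ε / 2) d)).card : ℝ) := by
        exact_mod_cast h8
      calc (exceptions x H (Good P a (expo s a w + ε)) : ℝ) ≤ 5 * (H * (x : ℝ) ^ (-δ)) :=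
            h9.trans h7
        _ ≤ _ := by
            apply mul_le_mul_of_nonneg_right _ (by positivity)
            linarith
    · have h8 : (exceptions x H (Good P a (expo s a w + ε)) : ℝ) ≤ H := by
        exact_mod_cast exceptions_le x H _
      have h9 : 1 ≤ (x0 : ℝ) ^ δ * (x : ℝ) ^ (-δ) := by
        have h10 : (x : ℝ) ^ δ ≤ (x0 : ℝ) ^ δ := by
          apply Real.rpow_le_rpow hxr.le _ hδ.le
          exact_mod_cast hgt.le
        calc (1 : ℝ) = (x : ℝ) ^ δ * (x : ℝ) ^ (-δ) := by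
              rw [← Real.rpow_add hxr, add_neg_cancel, Real.rpow_zero]
          _ ≤ _ := by gcongr
      calc (exceptions x H (Good P a (expo s a w + ε)) : ℝ) ≤ H := h8
        _ = H * 1 := (mul_one _).symm
        _ ≤ H * ((x0 : ℝ) ^ δ * (x : ℝ) ^ (-δ)) := by gcongr
        _ ≤ 5 * (H * (x : ℝ) ^ (-δ)) + H * ((x0 : ℝ) ^ δ * (x : ℝ) ^ (-δ)) := by
            have : 0 ≤ 5 * (H * (x : ℝ) ^ (-δ)) := by positivity
            linarith
        _ = _ := by ring
  refine ⟨δ, 5 + (x0 : ℝ) ^ δ, hδ, by positivity, ?_⟩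
  intro x H hx hxH hHx
  have h7 := hkey x H hx hxH hHx
  refine ⟨h7, le_trans ?_ h7⟩
  exact_mod_cast prime_le x H _

end Pool.Agent.Results.MP_d0fd9b_nt.ShortIntervals
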