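import Pool.Agent.N71.SP.All

/-!
# Class groups of real quadratic fields and a sparse set of small primes: very few exceptions

Let `P` be ANY set of primes that contains, for every `σ < s` and all large `y`, at least `y ^ σ` primes
of the interval `(y, 2y]`; here `0 < s ≤ 1` is arbitrary, so `P` may be very sparse.  For a squarefree
integer `d` let `K` be the field of the square root of `d` and `h` its class number, and consider the
prime ideals of `K` whose norm is a prime number of `P` and at most `(log d)^a`, where `a s > 1`.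

Put `e = (1 - s) / 2 + 1 / (2 a)` and `f = 2 (1 - s) + 2 / a`.  For every `ε > 0` all but `O(x^(f+ε))` of the
squarefree integers `d ≤ x`, in particular all but `O(x^(f+ε))` of the primes `p ≤ x`, have the following
properties:

* the classes of these prime ideals generate a subgroup of index at most `d^(e+ε)`,
* at least `h / d^(e+ε)` classes are products of at most `log d / log log d` such classes,
* if all these prime ideals are principal, then `h ≤ d^(e+ε)`.

The companion `ShortIntervals` has a smaller exponent of the index, but many more exceptions.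
-/

set_option autoImplicit false

namespace Pool.Agent.Results.MP_d0fd9b_nt.SparseSetsOfPrimes

open Filter Finset NumberField
open scoped Classical

/-- The prime numbers of the set `P` in the interval `(y, 2y]`. -/
noncomputable def primesIn (P : Set ℕ) (y : ℕ) : Finset ℕ :=
  (Finset.Ioc y (2 * y)).filter (fun p => p.Prime ∧ p ∈ P)

/-- For every `σ < s` and all large `y` the set `P` contains at least `y ^ σ` primes of `(y, 2y]`. -/
def HasExponent (P : Set ℕ) (s : ℝ) : Prop :=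
  ∀ σ : ℝ, σ < s → ∃ y0 : ℕ, ∀ y ≥ y0, (y : ℝ) ^ σ ≤ (primesIn P y).card

/-- The nonzero prime ideals of `K` whose norm is a prime number of `P` and at most `B`. -/
def smallPrimes (P : Set ℕ) (K : Type) [Field K] [NumberField K] (B : ℝ) :
    Set (nonZeroDivisors (Ideal (𝓞 K))) :=
  {𝔭 | (𝔭 : Ideal (𝓞 K)).IsPrime ∧ (Ideal.absNorm (𝔭 : Ideal (𝓞 K))).Prime ∧
    Ideal.absNorm (𝔭 : Ideal (𝓞 K)) ∈ P ∧ (Ideal.absNorm (𝔭 : Ideal (𝓞 K)) : ℝ) ≤ B}

/-- The ideal classes that are products of at most `n` classes of these prime ideals. -/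
def Reach (P : Set ℕ) (K : Type) [Field K] [NumberField K] (B n : ℝ) : Set (ClassGroup (𝓞 K)) :=
  {C | ∃ L : Multiset (nonZeroDivisors (Ideal (𝓞 K))), (∀ 𝔭 ∈ L, 𝔭 ∈ smallPrimes P K B) ∧
    (L.card : ℝ) ≤ n ∧ (L.map (fun 𝔭 => ClassGroup.mk0 𝔭)).prod = C}

/-- The subgroup of the class group generated by the classes of these prime ideals. -/
noncomputable def Gen (P : Set ℕ) (K : Type) [Field K] [NumberField K] (B : ℝ) :
    Subgroup (ClassGroup (𝓞 K)) :=
  Subgroup.closure ((fun 𝔭 => ClassGroup.mk0 𝔭) '' smallPrimes P K B)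

/-- The property of the integer `d`: for every quadratic field containing a square root of `d`, with
class number `h`, at least `h / d ^ e` classes are products of at most `log d / log log d` classes
of prime ideals of norm in `P` and at most `(log d) ^ a`, the subgroup generated by them has index at
most `d ^ e`, and `h ≤ d ^ e` if they are all principal. -/
def Good (P : Set ℕ) (a e : ℝ) (d : ℕ) : Prop :=
  ∀ (K : Type) [Field K] [NumberField K], Module.finrank ℚ K = 2 → (∃ x : K, x ^ 2 = (d : K)) →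
    (classNumber K : ℝ) ≤ (d : ℝ) ^ e *
      ((Reach P K ((Real.log d) ^ a) (Real.log d / Real.log (Real.log d))).ncard : ℝ) ∧
    ((Gen P K ((Real.log d) ^ a)).index : ℝ) ≤ (d : ℝ) ^ e ∧
    ((∀ 𝔭 ∈ smallPrimes P K ((Real.log d) ^ a), (𝔭 : Ideal (𝓞 K)).IsPrincipal) →
      (classNumber K : ℝ) ≤ (d : ℝ) ^ e)

/-- At most `C x ^ e` squarefree integers `d` with `2 ≤ d ≤ x` do not have the property `G`. -/
def AllBut (C e : ℝ) (G : ℕ → Prop) : Prop :=
  ∀ x : ℕ, (((Finset.Icc 2 x).filter (fun d => Squarefree d ∧ ¬ G d)).card : ℝ) ≤ C * (x : ℝ) ^ e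

/-- At most `C x ^ e` primes `p ≤ x` do not have the property `G`. -/
def AllButPrimes (C e : ℝ) (G : ℕ → Prop) : Prop :=
  ∀ x : ℕ, (((Finset.Icc 2 x).filter (fun p => p.Prime ∧ ¬ G p)).card : ℝ) ≤ C * (x : ℝ) ^ e

theorem allButPrimes {C e : ℝ} {G : ℕ → Prop} (h : AllBut C e G) : AllButPrimes C e G := by
  intro x
  refine le_trans ?_ (h x)
  have : ((Finset.Icc 2 x).filter (fun p => p.Prime ∧ ¬ G p)).card ≤
      ((Finset.Icc 2 x).filter (fun d => Squarefree d ∧ ¬ G d)).card := by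
    apply card_le_card
    intro p hp
    rw [mem_filter] at hp ⊢
    exact ⟨hp.1, hp.2.1.squarefree, hp.2.2⟩
  exact_mod_cast this

theorem reach_sub (P : Set ℕ) (K : Type) [Field K] [NumberField K] (B n : ℝ) :
    Reach P K B n ⊆ (Gen P K B : Set (ClassGroup (𝓞 K))) := by
  rintro C ⟨L, h1, -, rfl⟩
  refine Subgroup.multiset_prod_mem _ _ ?_
  intro c hc
  obtain ⟨𝔭, h𝔭, rfl⟩ := Multiset.mem_map.1 hc
  exact Subgroup.subset_closure ⟨𝔭, h1 𝔭 h𝔭, rfl⟩

/-- everything follows from the first property -/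
theorem good_of (P : Set ℕ) (a e : ℝ) (d : ℕ)
    (h : ∀ (K : Type) [Field K] [NumberField K], Module.finrank ℚ K = 2 →
      (∃ x : K, x ^ 2 = (d : K)) → (Nat.card (ClassGroup (𝓞 K)) : ℝ) ≤ (d : ℝ) ^ e *
      ((Reach P K ((Real.log d) ^ a) (Real.log d / Real.log (Real.log d))).ncard : ℝ)) :
    Good P a e d := by
  intro K _ _ hK hx
  have h1 := h K hK hx
  have hcl : (classNumber K : ℝ) = Nat.card (ClassGroup (𝓞 K)) := by
    unfold classNumber
    rw [Nat.card_eq_fintype_card]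
  rw [hcl]
  have hd : 0 ≤ (d : ℝ) ^ e := Real.rpow_nonneg (Nat.cast_nonneg _) _
  set G := Gen P K ((Real.log d) ^ a) with hG
  set R := Reach P K ((Real.log d) ^ a) (Real.log d / Real.log (Real.log d)) with hR
  have h2 : (R.ncard : ℝ) ≤ Nat.card G := by
    have h3 := Set.ncard_le_ncard (reach_sub P K ((Real.log d) ^ a)
      (Real.log d / Real.log (Real.log d))) (Set.toFinite _)
    have h4 : ((G : Subgroup (ClassGroup (𝓞 K))) : Set (ClassGroup (𝓞 K))).ncard = Nat.card G :=
      rfl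
    rw [← hG, h4, ← hR] at h3
    exact_mod_cast h3
  have h5 : (0 : ℝ) < Nat.card G := by exact_mod_cast Nat.card_pos
  have h6 : (Nat.card (ClassGroup (𝓞 K)) : ℝ) = Nat.card G * G.index := by
    exact_mod_cast (Subgroup.card_mul_index G).symm
  refine ⟨h1, ?_, ?_⟩
  · have h7 : (G.index : ℝ) * Nat.card G ≤ (d : ℝ) ^ e * Nat.card G := by
      calc (G.index : ℝ) * Nat.card G = Nat.card (ClassGroup (𝓞 K)) := by rw [h6]; ring
        _ ≤ (d : ℝ) ^ e * (R.ncard : ℝ) := h1
        _ ≤ _ := mul_le_mul_of_nonneg_left h2 hd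
    exact le_of_mul_le_mul_right h7 h5
  · intro hP
    have h8 : G = ⊥ := by
      rw [hG, Gen, Subgroup.closure_eq_bot_iff]
      rintro c ⟨𝔭, hp, rfl⟩
      rw [Set.mem_singleton_iff]
      show ClassGroup.mk0 𝔭 = 1
      rw [ClassGroup.mk0_eq_one_iff]
      exact hP _ hp
    have h9 : Nat.card G = 1 := by rw [h8]; exact Subgroup.card_bot
    rw [h9] at h2
    calc (Nat.card (ClassGroup (𝓞 K)) : ℝ) ≤ (d : ℝ) ^ e * (R.ncard : ℝ) := h1
      _ ≤ (d : ℝ) ^ e * ((1 : ℕ) : ℝ) := mul_le_mul_of_nonneg_left h2 hd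
      _ = _ := by rw [Nat.cast_one, mul_one]

theorem reach_eq (P : Set ℕ) (K : Type) [Field K] [NumberField K] (B n : ℝ) :
    Pool.Agent.N71.SP.Reach P K B n = Reach P K B n := rfl

theorem many_of (P : Set ℕ) (s σ : ℝ) (h : HasExponent P s) (hσ : σ < s) :
    Pool.Agent.N71.SP.Many P σ := h σ hσ

/-- from the property in the library to `Good` -/
theorem good_of_goodT {P : Set ℕ} {a e e' : ℝ} {d : ℕ} (hd : 1 ≤ d) (he : e ≤ e')
    (h : Pool.Agent.N71.SP.GoodT P a e d) : Good P a e' d := by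
  apply good_of
  intro K _ _ hK hx
  have h1 : (Nat.card (ClassGroup (𝓞 K)) : ℝ) ≤ (d : ℝ) ^ e *
      ((Reach P K ((Real.log d) ^ a) (Real.log d / Real.log (Real.log d))).ncard : ℝ) :=
    h K hK hx
  have h2 : (d : ℝ) ^ e ≤ (d : ℝ) ^ e' :=
    Real.rpow_le_rpow_of_exponent_le (by exact_mod_cast hd) he
  exact h1.trans (mul_le_mul_of_nonneg_right h2 (Nat.cast_nonneg _))

theorem allBut_of {C e e' : ℝ} {F G : ℕ → Prop} (hC : 0 ≤ C) (he : e ≤ e')
    (hFG : ∀ d, 3 ≤ d → F d → G d)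
    (h : ∀ X : ℕ, (((Finset.Icc 2 X).filter (fun d => Squarefree d ∧ ¬ F d)).card : ℝ) ≤
      C * (X : ℝ) ^ e) : ∀ x : ℕ, (((Finset.Icc 2 x).filter
        (fun d => Squarefree d ∧ ¬ G d)).card : ℝ) ≤ C * (x : ℝ) ^ e' + 1 := by
  intro x
  rcases Nat.eq_zero_or_pos x with hx | hx
  · subst hx
    have h0 : ((Finset.Icc 2 0).filter (fun d => Squarefree d ∧ ¬ G d)).card = 0 := by simp
    have : 0 ≤ C * ((0 : ℕ) : ℝ) ^ e' := mul_nonneg hC (Real.rpow_nonneg (by simp) _)
    rw [h0]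
    push_cast at this ⊢
    linarith
  have hx1 : (1 : ℝ) ≤ x := by exact_mod_cast hx
  have hsub : (Finset.Icc 2 x).filter (fun d => Squarefree d ∧ ¬ G d) ⊆
      insert 2 ((Finset.Icc 2 x).filter (fun d => Squarefree d ∧ ¬ F d)) := by
    intro d hd
    rw [mem_filter, mem_Icc] at hd
    rw [mem_insert]
    by_cases h2 : d = 2
    · exact Or.inl h2
    · right
      rw [mem_filter, mem_Icc]
      exact ⟨hd.1, hd.2.1, fun hF => hd.2.2 (hFG d (by omega) hF)⟩
  have h1 := (card_le_card hsub).trans (card_insert_le _ _)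
  have h2 : (((Finset.Icc 2 x).filter (fun d => Squarefree d ∧ ¬ G d)).card : ℝ) ≤
      (((Finset.Icc 2 x).filter (fun d => Squarefree d ∧ ¬ F d)).card : ℝ) + 1 := by
    exact_mod_cast h1
  have h3 : C * (x : ℝ) ^ e ≤ C * (x : ℝ) ^ e' :=
    mul_le_mul_of_nonneg_left (Real.rpow_le_rpow_of_exponent_le hx1 he) hC
  have h4 := h x
  linarith

theorem allBut_of' {C e e' : ℝ} {F G : ℕ → Prop} (hC : 0 ≤ C) (he : e ≤ e') (he0 : 0 ≤ e')
    (hFG : ∀ d, 3 ≤ d → F d → G d)
    (h : ∀ X : ℕ, (((Finset.Icc 2 X).filter (fun d => Squarefree d ∧ ¬ F d)).card : ℝ) ≤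
      C * (X : ℝ) ^ e) : AllBut (C + 1) e' G := by
  intro x
  have h1 := allBut_of hC he hFG h x
  rcases Nat.eq_zero_or_pos x with hx | hx
  · subst hx
    have h0 : ((Finset.Icc 2 0).filter (fun d => Squarefree d ∧ ¬ G d)).card = 0 := by simp
    rw [h0, Nat.cast_zero]
    exact mul_nonneg (by linarith) (Real.rpow_nonneg (by simp) _)
  have hx1 : (1 : ℝ) ≤ x := by exact_mod_cast hx
  have h2 : (1 : ℝ) ≤ (x : ℝ) ^ e' := Real.one_le_rpow hx1 he0
  calc _ ≤ C * (x : ℝ) ^ e' + 1 := h1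
    _ ≤ C * (x : ℝ) ^ e' + (x : ℝ) ^ e' := by linarith
    _ = _ := by ring

/-- **Main theorem.** -/
theorem result (P : Set ℕ) (s : ℝ) (hs0 : 0 < s) (hs1 : s ≤ 1) (hP : HasExponent P s) (a ε : ℝ)
    (ha : 1 < a * s) (hε : 0 < ε) : ∃ C : ℝ, 0 < C ∧
      AllBut C (2 * (1 - s) + 2 / a + ε) (Good P a ((1 - s) / 2 + 1 / (2 * a) + ε)) ∧
      AllButPrimes C (2 * (1 - s) + 2 / a + ε) (Good P a ((1 - s) / 2 + 1 / (2 * a) + ε)) := by
  have ha0 : 0 < a := by
    by_contra h
    push Not at h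
    nlinarith
  set σ : ℝ := max (s - ε / 8) ((s + 1 / a) / 2) with hσ
  have h1a : 1 / a < s := by
    rw [div_lt_iff₀ ha0]
    linarith
  have h6 : σ < s := max_lt (by linarith) (by linarith)
  have h5 : 1 / a < σ := lt_of_lt_of_le (by linarith) (le_max_right _ _)
  have h8 : s - ε / 8 ≤ σ := le_max_left _ _
  have hσ0 : 0 < σ := lt_trans (by positivity) h5
  have haσ : 1 < a * σ := by
    rw [div_lt_iff₀ ha0] at h5
    linarith
  obtain ⟨C, hC, h⟩ := Pool.Agent.N71.SP.tB P σ hσ0 (by linarith) (many_of P s σ hP h6)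
    a haσ (ε / 2) (by positivity)
  have h2a : 0 < 2 / a := by positivity
  have h7 : AllBut (C + 1) (2 * (1 - s) + 2 / a + ε)
      (Good P a ((1 - s) / 2 + 1 / (2 * a) + ε)) := by
    refine allBut_of' hC.le (by linarith) (by linarith) ?_ h
    intro d hd hg
    exact good_of_goodT (by omega) (by linarith) hg
  exact ⟨C + 1, by linarith, h7, allButPrimes h7⟩

end Pool.Agent.Results.MP_d0fd9b_nt.SparseSetsOfPrimes
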