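import Pool.Agent.N71.EX.All
import Pool.Agent.N71.RP.All
import Pool.Agent.N71.DM.Diam

/-!
# The prime ideals of norm at most `D^(1/4+ε)` of a real quadratic field: bounded index with very few
exceptions, and no exception for the index `D^ε`

For a real quadratic field `K = ℚ(√d)`, `d > 1` squarefree (in particular `K = ℚ(√p)`, `p` any prime), of
discriminant `D`, class number `h`, regulator `R` and character `χ`, let

`Λ(K) = (2 h R / √D) ∏_{p ≤ D} (1 - χ(p) / p) = L(1, χ) ∏_{p ≤ D} (1 - χ(p) / p)`.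

Let `A ≥ 1`.  There is a set `E` of natural numbers, such that `D₁ < D₂` in `E` implies `D₂ > D₁^A` (so
that no two elements of `E` lie in the same interval `[X, X^A]`, and `E` has at most
`log log X / log A + O(1)` elements up to `X`), with the following properties.  Let `ε > 0`; then there are
constants `c, C > 0` such that for every real quadratic field `K` with `D ∉ E` and `M = C`:

* the classes of the prime ideals of norm at most `D^(1/4+ε)` generate a subgroup of index at most `M` of
  the class group, and each class of this subgroup contains a product of at most `M` ideals of norm at most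
  `D^(1/4+ε)`;
* at least `h / M` ideal classes contain a product of two integral ideals of norm at most `D^(1/4+ε)`;
* if all the prime ideals of norm at most `D^(1/4+ε)` are principal, then `h ≤ M`;

and for EVERY real quadratic field `K`, without exception, the same statements hold with `M = C / Λ(K)`,
where `Λ(K) ≥ c D^(-ε)` (Siegel).

Minkowski's bound, which gives the whole class group, needs the prime ideals of norm up to a constant
times `D^(1/2)`.

Proof.  (1) Every field.  Burgess' bound for the character of the field (all moduli; Weil's bound) and the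
fundamental lemma of the sieve count the ideals of rough norm (no prime factor up to `D^δ`) and of norm at
most `x`, for every `x ≥ D^(1/4+ε')`, with the right order of magnitude; combined with the ideals of
smooth norm this shows that, among the ideals of norm at most `D^(1/2+4ε')`, a proportion at least
`c Λ(K)` consists of products of two ideals of norm at most `D^(1/4+3ε')` (each ideal arises boundedly
often, as its rough part has boundedly many factors).  A positivity argument (the number of ideals in a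
class against the number of pairs of close ideals) and a lattice point count (only a lattice with a very
short vector has many close pairs, and short vectors are rare) show that these products lie in at least
`c' h Λ(K)` classes; a symmetric subset of positive density of a finite commutative group generates in
boundedly many steps.  Siegel's theorem is used only to absorb error terms that are smaller by a power of
`D`.  (2) Repulsion.  If `Λ(K₁)` is small then the (truncated) `L`-function of `K₁` has a real zero `β` near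
`1`, `Λ(K₁) ≤ C (1 - β) log D`, and the non-negativity of the coefficients of
`ζ(s) L(s, χ₁) L(s, χ₂) L(s, χ₁ χ₂)` at `s = β` gives `Λ(K₂) ≥ c` for every other field `K₂` with
`D₂` between `D₁^(1/A)` and `D₁^A` (all with finite sums of real numbers).
-/

set_option autoImplicit false

namespace Pool.Agent.Results.MP_d0fd9b_nt.ThinExceptions

open Finset NumberField
open scoped Classical

/-- The nonzero prime ideals of `K` of norm at most `B`. -/
def smallPrimes (K : Type) [Field K] [NumberField K] (B : ℝ) :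
    Set (nonZeroDivisors (Ideal (𝓞 K))) :=
  {𝔭 | (𝔭 : Ideal (𝓞 K)).IsPrime ∧ (Ideal.absNorm (𝔭 : Ideal (𝓞 K)) : ℝ) ≤ B}

/-- The subgroup of the class group generated by the classes of the prime ideals of norm at most
`B`. -/
noncomputable def Gen (K : Type) [Field K] [NumberField K] (B : ℝ) :
    Subgroup (ClassGroup (𝓞 K)) :=
  Subgroup.closure ((fun 𝔭 => ClassGroup.mk0 𝔭) '' smallPrimes K B)

/-- The ideal classes that contain a product of two nonzero ideals of norm at most `B`. -/
def Products (K : Type) [Field K] [NumberField K] (B : ℝ) : Set (ClassGroup (𝓞 K)) :=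
  {C | ∃ I J : nonZeroDivisors (Ideal (𝓞 K)), (Ideal.absNorm (I : Ideal (𝓞 K)) : ℝ) ≤ B ∧
    (Ideal.absNorm (J : Ideal (𝓞 K)) : ℝ) ≤ B ∧ ClassGroup.mk0 (I * J) = C}

/-- The number of ideals of norm `p`, minus one: for a prime `p` and a quadratic field `K` this is the
value at `p` of the character of `K`, that is `1`, `-1` or `0` as `p` splits, is inert or ramifies. -/
noncomputable def splitSign (K : Type) [Field K] [NumberField K] (p : ℕ) : ℝ :=
  (Nat.card {I : Ideal (𝓞 K) // Ideal.absNorm I = p} : ℝ) - 1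

/-- `Λ(K) = (2 h R / √D) ∏_{p ≤ D} (1 - χ(p) / p)`, `h` the class number, `R` the regulator, `D` the
discriminant, `χ` the character of the real quadratic field `K`. -/
noncomputable def Lam (K : Type) [Field K] [NumberField K] : ℝ :=
  2 * (classNumber K : ℝ) * Units.regulator K / √(discr K : ℝ) *
    ∏ p ∈ (Finset.Icc 1 (discr K).natAbs).filter Nat.Prime, (1 - splitSign K p / p)

/-- The ideals of norm at most `B` generate the class group of `K` up to `M`: at least `h / M` classes
contain a product of two of them; the subgroup generated by their classes (that is, by the classes of the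
prime ideals of norm at most `B`) has index at most `M`, and each class of it contains a product of at
most `M` of them; and if all the prime ideals of norm at most `B` are principal, the class number is at
most `M`. -/
def Bounded (K : Type) [Field K] [NumberField K] (B M : ℝ) : Prop :=
  (classNumber K : ℝ) ≤ M * ((Products K B).ncard : ℝ) ∧
  ((Gen K B).index : ℝ) ≤ M ∧
  (∀ c ∈ Gen K B, ∃ l : List (nonZeroDivisors (Ideal (𝓞 K))), (l.length : ℝ) ≤ M ∧
    (∀ I ∈ l, (Ideal.absNorm (I : Ideal (𝓞 K)) : ℝ) ≤ B) ∧ ClassGroup.mk0 l.prod = c) ∧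
  ((∀ 𝔭 ∈ smallPrimes K B, (𝔭 : Ideal (𝓞 K)).IsPrincipal) → (classNumber K : ℝ) ≤ M)

theorem mk0_mem (K : Type) [Field K] [NumberField K] (B : ℝ) (I : nonZeroDivisors (Ideal (𝓞 K)))
    (hI : (Ideal.absNorm (I : Ideal (𝓞 K)) : ℝ) ≤ B) : ClassGroup.mk0 I ∈ Gen K B := by
  have key : ∀ J : Ideal (𝓞 K), ∀ hJ : J ∈ nonZeroDivisors (Ideal (𝓞 K)),
      (Ideal.absNorm J : ℝ) ≤ B → ClassGroup.mk0 (⟨J, hJ⟩ : nonZeroDivisors (Ideal (𝓞 K))) ∈
        Gen K B := by
    intro J
    induction J using UniqueFactorizationMonoid.induction_on_prime with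
    | h₁ =>
      intro hJ
      exact absurd rfl (mem_nonZeroDivisors_iff_ne_zero.1 hJ)
    | h₂ J hJu =>
      intro hJ _
      have h1 : J = 1 := by
        rw [Ideal.isUnit_iff] at hJu
        rw [hJu, Ideal.one_eq_top]
      have h2 : (⟨J, hJ⟩ : nonZeroDivisors (Ideal (𝓞 K))) = 1 := Subtype.ext h1
      rw [h2, map_one]
      exact Subgroup.one_mem _
    | h₃ J p hJ0 hp ih =>
      intro hJ hB
      have hJm : J ∈ nonZeroDivisors (Ideal (𝓞 K)) := mem_nonZeroDivisors_iff_ne_zero.2 hJ0
      have hpm : p ∈ nonZeroDivisors (Ideal (𝓞 K)) := mem_nonZeroDivisors_iff_ne_zero.2 hp.ne_zero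
      have h1 : (⟨p * J, hJ⟩ : nonZeroDivisors (Ideal (𝓞 K))) = ⟨p, hpm⟩ * ⟨J, hJm⟩ :=
        Subtype.ext rfl
      have hn : Ideal.absNorm (p * J) = Ideal.absNorm p * Ideal.absNorm J := map_mul _ _ _
      have hp1 : 1 ≤ Ideal.absNorm p := Nat.one_le_iff_ne_zero.2
        (Ideal.absNorm_ne_zero_iff_mem_nonZeroDivisors.2 hpm)
      have hJ1 : 1 ≤ Ideal.absNorm J := Nat.one_le_iff_ne_zero.2
        (Ideal.absNorm_ne_zero_iff_mem_nonZeroDivisors.2 hJm)
      have hpB : (Ideal.absNorm p : ℝ) ≤ B := by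
        refine le_trans ?_ hB
        rw [hn]
        exact_mod_cast Nat.le_mul_of_pos_right _ hJ1
      have hJB : (Ideal.absNorm J : ℝ) ≤ B := by
        refine le_trans ?_ hB
        rw [hn]
        exact_mod_cast Nat.le_mul_of_pos_left _ hp1
      rw [h1, map_mul]
      refine Subgroup.mul_mem _ (Subgroup.subset_closure ⟨⟨p, hpm⟩, ⟨?_, hpB⟩, rfl⟩) (ih hJm hJB)
      exact Ideal.isPrime_of_prime hp
  exact key I I.2 hI

/-- The value of the character at a prime. -/
theorem splitSign_eq (K : Type) [Field K] [NumberField K] (D : ℕ)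
    (hD : Pool.Agent.H38R2.CG.IsFund D) (hK : Module.finrank ℚ K = 2)
    (hdisc : discr K = (D : ℤ)) (p : ℕ) (hp : p.Prime) :
    splitSign K p = (Pool.Agent.H38R2.CG.chi D p : ℝ) := by
  have h := Pool.Agent.N71.EX.t_N2 K D hD hK hdisc p hp.one_lt.le
  have h1 : Pool.Agent.H38R2.CG.chi D 1 = 1 := by
    simp [Pool.Agent.H38R2.CG.chi]
  rw [hp.divisors, Finset.sum_pair hp.one_lt.ne, h1] at h
  unfold splitSign
  have h2 : ((Nat.card {I : Ideal (𝓞 K) // Ideal.absNorm I = p} : ℤ) : ℝ) =
      ((1 + Pool.Agent.H38R2.CG.chi D p : ℤ) : ℝ) := by rw [h]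
  push_cast at h2
  rw [h2]
  ring

/-- `Λ(K)` in terms of the `L`-function. -/
theorem Lam_eq (K : Type) [Field K] [NumberField K] (D : ℕ)
    (hD : Pool.Agent.H38R2.CG.IsFund D) (hK : Module.finrank ℚ K = 2)
    (hdisc : discr K = (D : ℤ)) :
    Lam K = Pool.Agent.H38R2.CG.Lone D / Pool.Agent.N71.EX.PE D D := by
  have h1 := Pool.Agent.N323.EX.t_CNF K D hD hK hdisc
  have h2 : (discr K : ℝ) = (D : ℝ) := by
    rw [hdisc]
    push_cast
    rfl
  have h3 : (discr K).natAbs = D := by
    rw [hdisc]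
    exact Int.natAbs_natCast D
  unfold Lam
  rw [h2, h3, h1, div_eq_mul_inv _ (Pool.Agent.N71.EX.PE D D)]
  congr 1
  unfold Pool.Agent.N71.EX.PE
  rw [← Finset.prod_inv_distrib]
  refine Finset.prod_congr rfl fun p hp => ?_
  rw [inv_inv, splitSign_eq K D hD hK hdisc p (Finset.mem_filter.1 hp).2]

theorem Bounded.mono {K : Type} [Field K] [NumberField K] {B M M' : ℝ} (h : Bounded K B M)
    (hM : M ≤ M') : Bounded K B M' := by
  obtain ⟨h1, h2, h3, h4⟩ := h
  refine ⟨h1.trans (mul_le_mul_of_nonneg_right hM (Nat.cast_nonneg _)), h2.trans hM, ?_,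
    fun h => (h4 h).trans hM⟩
  intro c hc
  obtain ⟨l, hl, hl2⟩ := h3 c hc
  exact ⟨l, hl.trans hM, hl2⟩

/-- In a quadratic field the inverse class contains an ideal of the same norm. -/
theorem exists_inv (K : Type) [Field K] [NumberField K] (hK : Module.finrank ℚ K = 2)
    (I : nonZeroDivisors (Ideal (𝓞 K))) : ∃ J : nonZeroDivisors (Ideal (𝓞 K)),
      Ideal.absNorm (J : Ideal (𝓞 K)) = Ideal.absNorm (I : Ideal (𝓞 K)) ∧
      ClassGroup.mk0 J = (ClassGroup.mk0 I)⁻¹ := by
  set n := Ideal.absNorm (I : Ideal (𝓞 K)) with hn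
  have hn0 : n ≠ 0 := Ideal.absNorm_ne_zero_iff_mem_nonZeroDivisors.2 I.2
  have hmem : ((n : ℕ) : 𝓞 K) ∈ (I : Ideal (𝓞 K)) := Ideal.absNorm_mem _
  obtain ⟨J, hJ⟩ := Ideal.dvd_span_singleton.2 hmem
  have hspan : Ideal.span {((n : ℕ) : 𝓞 K)} ≠ 0 := by
    rw [Ne, Ideal.zero_eq_bot, Ideal.span_singleton_eq_bot]
    exact_mod_cast hn0
  have hJ0 : J ≠ 0 := by
    rintro rfl
    exact hspan (by rw [hJ, mul_zero])
  have hJm : J ∈ nonZeroDivisors (Ideal (𝓞 K)) := mem_nonZeroDivisors_iff_ne_zero.2 hJ0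
  have hnorm : Ideal.absNorm (Ideal.span {((n : ℕ) : 𝓞 K)}) = n ^ 2 := by
    rw [Ideal.absNorm_span_singleton]
    have h2 : Algebra.norm ℤ ((n : ℕ) : 𝓞 K) = (n : ℤ) ^ 2 := by
      have h3 := Algebra.norm_algebraMap (R := ℤ) (S := 𝓞 K) (n : ℤ)
      rw [RingOfIntegers.rank, hK] at h3
      simpa using h3
    rw [h2]
    simp [Int.natAbs_pow]
  have hNJ : Ideal.absNorm J = n := by
    have h2 : Ideal.absNorm (Ideal.span {((n : ℕ) : 𝓞 K)}) =
        Ideal.absNorm (I : Ideal (𝓞 K)) * Ideal.absNorm J := by rw [hJ, map_mul]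
    rw [hnorm, ← hn, pow_two] at h2
    exact (Nat.eq_of_mul_eq_mul_left (Nat.pos_of_ne_zero hn0) h2).symm
  refine ⟨⟨J, hJm⟩, hNJ, ?_⟩
  rw [eq_inv_iff_mul_eq_one, mul_comm, ← map_mul, ClassGroup.mk0_eq_one_iff]
  refine ⟨⟨((n : ℕ) : 𝓞 K), ?_⟩⟩
  show (I : Ideal (𝓞 K)) * J = _
  rw [← hJ]

theorem bounded_of (K : Type) [Field K] [NumberField K] (hK : Module.finrank ℚ K = 2) (B M : ℝ)
    (hB : 1 ≤ B) (hM : 0 ≤ M) (h : (classNumber K : ℝ) ≤ M * ((Products K B).ncard : ℝ)) :
    Bounded K B (6 * M) := by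
  have hcl : (classNumber K : ℝ) = Nat.card (ClassGroup (𝓞 K)) := by
    unfold classNumber
    rw [Nat.card_eq_fintype_card]
  set G := Gen K B with hG
  set R := Products K B with hR
  have hR0 : (0 : ℝ) ≤ R.ncard := Nat.cast_nonneg _
  have hone : (Ideal.absNorm ((1 : nonZeroDivisors (Ideal (𝓞 K))) : Ideal (𝓞 K)) : ℝ) ≤ B := by
    have h1 : ((1 : nonZeroDivisors (Ideal (𝓞 K))) : Ideal (𝓞 K)) = 1 := rfl
    rw [h1, map_one, Nat.cast_one]
    exact hB
  have hsub : R ⊆ (G : Set (ClassGroup (𝓞 K))) := by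
    rintro c ⟨I, J, hI, hJ, rfl⟩
    rw [map_mul]
    exact Subgroup.mul_mem _ (mk0_mem K _ I hI) (mk0_mem K _ J hJ)
  have h2 : (R.ncard : ℝ) ≤ Nat.card G := by
    have h3 := Set.ncard_le_ncard hsub (Set.toFinite _)
    have h4 : ((G : Subgroup (ClassGroup (𝓞 K))) : Set (ClassGroup (𝓞 K))).ncard = Nat.card G :=
      rfl
    rw [h4] at h3
    exact_mod_cast h3
  have h5 : (0 : ℝ) < Nat.card G := by exact_mod_cast Nat.card_pos
  have h6 : (classNumber K : ℝ) = Nat.card G * G.index := by
    rw [hcl]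
    exact_mod_cast (Subgroup.card_mul_index G).symm
  have hM6 : M ≤ 6 * M := by linarith
  refine ⟨h.trans (mul_le_mul_of_nonneg_right hM6 hR0), ?_, ?_, ?_⟩
  · have h7 : (G.index : ℝ) * Nat.card G ≤ M * Nat.card G := by
      calc (G.index : ℝ) * Nat.card G = classNumber K := by rw [h6]; ring
        _ ≤ M * (R.ncard : ℝ) := h
        _ ≤ _ := mul_le_mul_of_nonneg_left h2 hM
    exact (le_of_mul_le_mul_right h7 h5).trans hM6
  · intro c hc
    have h1R : (1 : ClassGroup (𝓞 K)) ∈ R := ⟨1, 1, hone, hone, by rw [mul_one, map_one]⟩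
    have hinvR : ∀ s ∈ R, s⁻¹ ∈ R := by
      rintro s ⟨I, J, hI, hJ, rfl⟩
      obtain ⟨I', hI', hI2⟩ := exists_inv K hK I
      obtain ⟨J', hJ', hJ2⟩ := exists_inv K hK J
      refine ⟨I', J', by rw [hI']; exact hI, by rw [hJ']; exact hJ, ?_⟩
      rw [map_mul, hI2, hJ2, map_mul, mul_inv]
    have hcS : c ∈ Subgroup.closure R := by
      have hle : G ≤ Subgroup.closure R := by
        rw [hG, Gen, Subgroup.closure_le]
        rintro c ⟨𝔭, hp, rfl⟩
        exact Subgroup.subset_closure ⟨𝔭, 1, hp.2, hone, by rw [mul_one]⟩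
      exact hle hc
    rw [hcl] at h
    obtain ⟨l, hl, hlen, hprod⟩ := Pool.Agent.N71.DM.diam R h1R hinvR M h c hcS
    have hflat : ∀ l : List (ClassGroup (𝓞 K)), (∀ s ∈ l, s ∈ R) →
        ∃ L : List (nonZeroDivisors (Ideal (𝓞 K))),
          (∀ I ∈ L, (Ideal.absNorm (I : Ideal (𝓞 K)) : ℝ) ≤ B) ∧ L.length = 2 * l.length ∧
          ClassGroup.mk0 L.prod = l.prod := by
      intro l
      induction l with
      | nil => exact fun _ => ⟨[], by simp, by simp, by simp⟩
      | cons a l ih =>
        intro hal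
        obtain ⟨L, hL1, hL2, hL3⟩ := ih fun s hs => hal s (List.mem_cons_of_mem _ hs)
        obtain ⟨I, J, hI, hJ, hIJ⟩ := hal a List.mem_cons_self
        refine ⟨I :: J :: L, ?_, ?_, ?_⟩
        · intro I' hI'
          rcases List.mem_cons.1 hI' with h | h
          · rw [h]
            exact hI
          · rcases List.mem_cons.1 h with h | h
            · rw [h]
              exact hJ
            · exact hL1 I' h
        · simp only [List.length_cons, hL2]
          ring
        · rw [List.prod_cons, List.prod_cons, List.prod_cons, ← mul_assoc, map_mul, hIJ, hL3]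
    obtain ⟨L, hL1, hL2, hL3⟩ := hflat l hl
    refine ⟨L, ?_, hL1, by rw [hL3, hprod]⟩
    rw [hL2]
    push_cast
    linarith
  · intro hP
    have h8 : G = ⊥ := by
      rw [hG, Gen, Subgroup.closure_eq_bot_iff]
      rintro c ⟨𝔭, hp, rfl⟩
      rw [Set.mem_singleton_iff]
      show ClassGroup.mk0 𝔭 = 1
      rw [ClassGroup.mk0_eq_one_iff]
      exact hP _ hp
    have h9 : Nat.card G = 1 := by rw [h8]; exact Subgroup.card_bot
    have h10 := h2
    rw [h9, Nat.cast_one] at h10
    calc (classNumber K : ℝ) ≤ M * (R.ncard : ℝ) := h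
      _ ≤ M * 1 := mul_le_mul_of_nonneg_left h10 hM
      _ ≤ 6 * M := by linarith

/-- **All real quadratic fields but a very thin set of them: the ideals of norm at most `D^(1/4+ε)`
generate the class group up to a constant; for no field do they fail to generate it up to `D^ε`.** -/
theorem result (A : ℝ) (hA : 1 ≤ A) : ∃ E : Set ℕ,
    (∀ D₁ ∈ E, ∀ D₂ ∈ E, D₁ < D₂ → (D₁ : ℝ) ^ A < D₂) ∧
    ∀ ε : ℝ, 0 < ε → ∃ c C : ℝ, 0 < c ∧ 0 < C ∧
    ∀ (d : ℕ), 1 < d → Squarefree d → ∀ (K : Type) [Field K] [NumberField K],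
      Module.finrank ℚ K = 2 → (∃ x : K, x ^ 2 = (d : K)) → ∀ D : ℕ, (D : ℤ) = discr K →
      (D ∉ E → Bounded K ((D : ℝ) ^ (1 / 4 + ε)) C) ∧
      Bounded K ((D : ℝ) ^ (1 / 4 + ε)) (C / Lam K) ∧
      c * (D : ℝ) ^ (-ε) ≤ Lam K := by
  obtain ⟨c0, hc0, hrep⟩ := Pool.Agent.N71.RP.t_RP A hA
  refine ⟨{D | Pool.Agent.H38R2.CG.IsFund D ∧
    Pool.Agent.H38R2.CG.Lone D / Pool.Agent.N71.EX.PE D D < c0}, ?_, fun ε hε => ?_⟩
  · rintro D₁ ⟨h1, h1'⟩ D₂ ⟨h2, h2'⟩ hlt
    by_contra hcon
    rcases hrep D₁ D₂ h1 h2 hlt (not_lt.1 hcon) with h | h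
    · exact absurd h (not_le.2 h1')
    · exact absurd h (not_le.2 h2')
  obtain ⟨C, hC, h⟩ := Pool.Agent.N71.EX.t_EX ε hε
  obtain ⟨c, hc, hlow⟩ := Pool.Agent.N71.EX.t_LOW ε hε
  have hCC : 0 < C / c0 := by positivity
  refine ⟨c, 6 * (C + C / c0), hc, by positivity, ?_⟩
  intro d hd hsq K _ _ hK hx D hD
  have hdisc := Pool.Agent.H38R2.CG.T_N0d K d hd hsq hK hx
  have hfund' := Pool.Agent.R345.IX.isFund_Dof hd hsq
  have hdisc' : discr K = ((Pool.Agent.R345.IX.Dof d : ℕ) : ℤ) := by
    rw [hdisc]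
    unfold Pool.Agent.R345.IX.Dof
    split_ifs <;> push_cast <;> rfl
  have hDD : Pool.Agent.R345.IX.Dof d = D := by
    rw [hdisc'] at hD
    exact_mod_cast hD.symm
  rw [hDD] at hfund'
  have hfund : Pool.Agent.H38R2.CG.IsFund D := hfund'
  have h1 := h K D hfund hK hD.symm
  have h0 := hlow D hfund
  have hLam := Lam_eq K D hfund hK hD.symm
  have hDr : (1 : ℝ) < D := by exact_mod_cast hfund.1
  have hLam0 : 0 < Lam K := by
    rw [hLam]
    exact lt_of_lt_of_le (mul_pos hc (Real.rpow_pos_of_pos (by linarith) _)) h0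
  rw [← hLam] at h1 h0
  have hcl : (classNumber K : ℝ) = Nat.card (ClassGroup (𝓞 K)) := by
    unfold classNumber
    rw [Nat.card_eq_fintype_card]
  have hTwo : Pool.Agent.N71.BI.Two K ((D : ℝ) ^ (1 / 4 + ε)) =
      Products K ((D : ℝ) ^ (1 / 4 + ε)) := rfl
  rw [hTwo, ← hcl] at h1
  have hB : (1 : ℝ) ≤ (D : ℝ) ^ (1 / 4 + ε) := Real.one_le_rpow hDr.le (by positivity)
  have hR0 : (0 : ℝ) ≤ (Products K ((D : ℝ) ^ (1 / 4 + ε))).ncard := Nat.cast_nonneg _
  refine ⟨fun hDE => ?_, ?_, h0⟩
  · have hge : c0 ≤ Lam K := by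
      rw [hLam]
      by_contra hcon
      exact hDE ⟨hfund, not_le.1 hcon⟩
    have a1 : (classNumber K : ℝ) * c0 ≤
        C * ((Products K ((D : ℝ) ^ (1 / 4 + ε))).ncard : ℝ) :=
      (mul_le_mul_of_nonneg_left hge (Nat.cast_nonneg _)).trans h1
    have a2 : (classNumber K : ℝ) ≤
        C / c0 * ((Products K ((D : ℝ) ^ (1 / 4 + ε))).ncard : ℝ) := by
      rw [div_mul_eq_mul_div, le_div_iff₀ hc0]
      exact a1
    exact (bounded_of K hK _ _ hB hCC.le a2).mono (by linarith)
  · have a2 : (classNumber K : ℝ) ≤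
        C / Lam K * ((Products K ((D : ℝ) ^ (1 / 4 + ε))).ncard : ℝ) := by
      rw [div_mul_eq_mul_div, le_div_iff₀ hLam0]
      exact h1
    refine (bounded_of K hK _ _ hB (by positivity) a2).mono ?_
    rw [← mul_div_assoc]
    gcongr
    linarith

end Pool.Agent.Results.MP_d0fd9b_nt.ThinExceptions
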